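import Pool.Agent.N714.Sym.Basic

/-!
# Sets with two noncommuting affine symmetries

If a nonempty set `A` of natural numbers is mapped into itself by two affine maps `x ↦ α₁ x + β₁` and `x ↦ α₂ x + β₂`,
where `α₁, α₂ ≥ 1` and `β₁, β₂` are integers, and these maps do not commute, then for every `h ≥ 2` the number of
representations of `n` as a sum of `h` elements of `A` is at least `n ^ c` for infinitely many `n`, for some `c > 0`.
-/

set_option autoImplicit false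

open Filter

namespace Pool.Agent.Results.MP_d5a1e1_nt.NoncommutingSymmetries

/-- the number of representations of `n` as a sum of `h` elements of `A`, the order being disregarded -/
noncomputable def rep (A : Set ℕ) (h n : ℕ) : ℕ :=
  {s : Multiset ℕ | Multiset.card s = h ∧ (∀ a ∈ s, a ∈ A) ∧ s.sum = n}.ncard

/-- the map `x ↦ α x + β` sends `A` into itself -/
def Symm (A : Set ℕ) (α : ℕ) (β : ℤ) : Prop := ∀ a ∈ A, ∃ b ∈ A, (b : ℤ) = α * a + β

theorem result (h : ℕ) (hh : 2 ≤ h) (A : Set ℕ) (hA : A.Nonempty) (α₁ α₂ : ℕ) (β₁ β₂ : ℤ) (h₁ : 1 ≤ α₁) (h₂ : 1 ≤ α₂)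
    (s₁ : Symm A α₁ β₁) (s₂ : Symm A α₂ β₂)
    (hne : ∃ x : ℤ, α₁ * (α₂ * x + β₂) + β₁ ≠ α₂ * (α₁ * x + β₁) + β₂) :
    ∃ c : ℝ, 0 < c ∧ ∃ᶠ n : ℕ in atTop, (n : ℝ) ^ c ≤ rep A h n := by
  obtain ⟨x, hx⟩ := hne
  have hδ : (α₂ * β₁ + β₂ : ℤ) - (α₁ * β₂ + β₁) ≠ 0 := fun h0 => hx (by linear_combination -h0)
  have hα : 2 ≤ α₁ * α₂ := by
    by_contra hcon
    have h3 : α₁ * α₂ ≤ 1 := by omega
    have h4 : α₁ ≤ α₁ * α₂ := Nat.le_mul_of_pos_right _ h₂
    have h5 : α₂ ≤ α₁ * α₂ := Nat.le_mul_of_pos_left _ h₁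
    have h6 : α₁ = 1 := by omega
    have h7 : α₂ = 1 := by omega
    subst h6 h7
    apply hx
    push_cast
    ring
  refine Pool.Agent.N714.Sym.noncomm (A := A) hα (γ := α₁ * β₂ + β₁) hδ ?_ ?_ hA h hh
  · intro a ha
    obtain ⟨b, hb, hb'⟩ := s₂ a ha
    obtain ⟨c, hc, hc'⟩ := s₁ b hb
    refine ⟨c, hc, ?_⟩
    rw [hc', hb']
    push_cast
    ring
  · intro a ha
    obtain ⟨b, hb, hb'⟩ := s₁ a ha
    obtain ⟨c, hc, hc'⟩ := s₂ b hb
    refine ⟨c, hc, ?_⟩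
    rw [hc', hb']
    push_cast
    ring

end Pool.Agent.Results.MP_d5a1e1_nt.NoncommutingSymmetries
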